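import Pool.Agent.Q256.EC.All

/-!
# A gap principle for endomorphisms of projective space which need not be étale

Let `Φ` be a non-constant endomorphism of `ℙ^N` over the complex numbers.

1. Let `V` be closed, without periodic subvarieties of positive dimension: for every `k > 0` only finitely
many points `x` have `Φ^(kn)(x) ∈ V` for all `n`. Suppose that for the periodic points `x = Φ^l(x)` in `V` the
number `0` is at most a simple eigenvalue of the derivative of `Φ^l` at `x`. Let `Z` be closed with
`Φ^k(Z) ⊆ Z` for some `k > 0`. Then for every point `α` of `ℙ^N(ℂ)` the return set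
`{n | Φ^n(α) ∈ V ∪ Z}` is the union of finitely many arithmetic progressions and a sparse set: at most `M` of
its elements are between `X` and `b ^ X / C`, for all `X`.
2. Such sparse sets have at most `D (j + 1)` elements below the `j`-th iterated exponential.

In `ℙ^2` every closed set is such a union `V ∪ Z`, and the hypothesis excludes only the points of `V` at which
the derivative of `Φ^l` is nilpotent.

The proof (with `Pool.Agent.Q170.GP`, where `V` has no periodic points or `Φ` is étale along them): for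
suitable `p` the orbit of `α` is `p`-adically near to a limit orbit; if the gap lemma does not apply, then
this is a cycle. Near the cycle the orbit is an exponential polynomial up to errors of any exponential
order (the linear part need not be invertible). So for each form `G` and each class modulo a number `m` either
the gap lemma applies to the zeros of `G` on the orbit, or `G` is superexponentially small. The ideal of the
forms of the second kind is invariant; if it contains the equations of `V` its zero set is finite, so the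
orbit converges superexponentially to the cycle. Then, as the generalised kernel of the derivative has
dimension at most one, the orbit is, up to errors of any order, a polynomial in one coordinate, and the
same argument with the ideal shows that the orbit is in `V` finitely often or ends in the cycle.
-/

set_option autoImplicit false

open MvPolynomial

namespace Pool.Agent.Results.MP_b15c9e_ag.DegenerateCycles

open Pool.Agent.Q170.GP (Sparse tower)

/-- A non-constant endomorphism of `ℙ^N` over `ℂ`: `N + 1` forms of the same positive degree without common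
zero. -/
structure Endo (N : ℕ) where
  F : Fin (N + 1) → MvPolynomial (Fin (N + 1)) ℂ
  homogeneous : ∃ d : ℕ, 1 ≤ d ∧ ∀ i, (F i).IsHomogeneous d
  regular : ∀ x : Fin (N + 1) → ℂ, (∀ i, eval x (F i) = 0) → x = 0

/-- The endomorphism on homogeneous coordinates. -/
noncomputable def Endo.map {N : ℕ} (Φ : Endo N) (x : Fin (N + 1) → ℂ) : Fin (N + 1) → ℂ :=
  fun i => eval x (Φ.F i)

/-- The forms of the `k`-th iterate: `F` substituted into itself. -/
noncomputable def Endo.iter {N : ℕ} (Φ : Endo N) (k : ℕ) : Fin (N + 1) → MvPolynomial (Fin (N + 1)) ℂ :=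
  fun i => (bind₁ Φ.F)^[k] (X i)

/-- The Jacobian matrix of the forms of the `k`-th iterate. At a fixed point `x` of `Φ^k`,
`Φ^k(x) = c x` in coordinates, it induces `c` times the derivative of `Φ^k` on the tangent space at `x`, and its
remaining eigenvalue (eigenvector `x`) is not `0`. -/
noncomputable def Endo.jacobian {N : ℕ} (Φ : Endo N) (k : ℕ) (x : Fin (N + 1) → ℂ) :
    Matrix (Fin (N + 1)) (Fin (N + 1)) ℂ := Matrix.of fun i j => eval x (pderiv j (Φ.iter k i))

/-- A closed subset of `ℙ^N`, given by forms. -/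
structure Closed (N : ℕ) where
  forms : Set (MvPolynomial (Fin (N + 1)) ℂ)
  homogeneous : ∀ g ∈ forms, ∃ e : ℕ, g.IsHomogeneous e

/-- The point with homogeneous coordinates `x` is in `V`. -/
def Closed.Has {N : ℕ} (V : Closed N) (x : Fin (N + 1) → ℂ) : Prop :=
  ∀ g ∈ V.forms, eval x g = 0

/-- The points with coordinates in `A` are finitely many. -/
def FinitelyMany {N : ℕ} (A : Set (Fin (N + 1) → ℂ)) : Prop :=
  ∃ P : Finset (Fin (N + 1) → ℂ), ∀ x ∈ A, x ≠ 0 → ∃ y ∈ P, ∃ c : ℂ, x = c • y

/-- The union of the arithmetic progressions `{a m + c | m ≥ 0}`, `(a, c) ∈ T`. -/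
def progressions (T : Finset (ℕ × ℕ)) : Set ℕ := {n | ∃ q ∈ T, ∃ m : ℕ, n = q.1 * m + q.2}

theorem result :
    (∀ (N : ℕ) (Φ : Endo N) (V Z : Closed N) (k : ℕ), 0 < k →
      (∀ x, x ≠ 0 → Z.Has x → Z.Has (Φ.map^[k] x)) →
      (∀ m : ℕ, 0 < m → FinitelyMany {x | ∀ n, V.Has (Φ.map^[m * n] x)}) →
      (∀ x, x ≠ 0 → V.Has x → ∀ l : ℕ, 0 < l → (∃ c : ℂ, Φ.map^[l] x = c • x) →
        (Φ.jacobian l x).charpoly.rootMultiplicity 0 ≤ 1) →
      ∀ α, α ≠ 0 → ∃ (T : Finset (ℕ × ℕ)) (M : ℕ) (b C : ℝ) (R : Set ℕ), 1 < b ∧ 0 < C ∧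
        Sparse M b C R ∧ {n | V.Has (Φ.map^[n] α) ∨ Z.Has (Φ.map^[n] α)} = progressions T ∪ R) ∧
    ∀ (M : ℕ) (b C : ℝ), 1 < b → 0 < C → ∃ D : ℕ, ∀ R : Set ℕ, Sparse M b C R → ∀ j : ℕ,
      {n : ℕ | n ∈ R ∧ n < tower j}.encard ≤ (D * (j + 1) : ℕ) := by
  refine ⟨fun N Φ V Z k hk hZ hfin hjac α hα => ?_, fun M b C hb hC =>
    Pool.Agent.Q170.GP.tower_count M b C hb hC⟩
  obtain ⟨d, hd, hF⟩ := Φ.homogeneous
  obtain ⟨T, M, b, C, R, hb, hC, hR, hTR⟩ := Pool.Agent.Q256.EC.fin_all N d hd Φ.F hF Φ.regular
    V.forms V.homogeneous (fun m hm => by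
      obtain ⟨P, hP⟩ := hfin m hm
      exact ⟨P, fun x hx h => hP x h hx⟩) (fun x hx hxV l hl hc => by
      have h1 := hjac x hx hxV l hl hc
      rw [Polynomial.rootMultiplicity_eq_natTrailingDegree'] at h1
      exact h1) α hα
  have hmap : ∀ n, ∀ x, x ≠ 0 → Φ.map^[n] x ≠ 0 := by
    intro n
    induction n with
    | zero => exact fun x hx => hx
    | succ n ih =>
      intro x hx h0
      rw [Function.iterate_succ_apply'] at h0
      exact ih x hx (Φ.regular _ fun i => congrFun h0 i)
  obtain ⟨T', hT'⟩ := Pool.Agent.Q256.EC.prog_all k {n | Z.Has (Φ.map^[n] α)} hk (by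
    intro n hn
    have h1 := hZ _ (hmap n α hα) hn
    rw [← Function.iterate_add_apply, add_comm k n] at h1
    exact h1)
  classical
  refine ⟨T ∪ T', M, b, C, R, hb, hC, hR, ?_⟩
  ext n
  have h1 : V.Has (Φ.map^[n] α) ↔ n ∈ {n | ∃ q ∈ T, ∃ m : ℕ, n = q.1 * m + q.2} ∪ R := by
    rw [← hTR]
    exact Iff.rfl
  have h2 : Z.Has (Φ.map^[n] α) ↔ n ∈ {n | ∃ q ∈ T', ∃ m : ℕ, n = q.1 * m + q.2} := by
    rw [← hT']
    exact Iff.rfl
  rw [Set.mem_ofPred_eq, h1, h2]
  simp only [progressions, Set.mem_union, Set.mem_ofPred_eq, Finset.mem_union]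
  constructor
  · rintro ((⟨q, hq, m, hm⟩ | h) | ⟨q, hq, m, hm⟩)
    · exact Or.inl ⟨q, Or.inl hq, m, hm⟩
    · exact Or.inr h
    · exact Or.inl ⟨q, Or.inr hq, m, hm⟩
  · rintro (⟨q, hq | hq, m, hm⟩ | h)
    · exact Or.inl (Or.inl ⟨q, hq, m, hm⟩)
    · exact Or.inr ⟨q, hq, m, hm⟩
    · exact Or.inl (Or.inr h)

end Pool.Agent.Results.MP_b15c9e_ag.DegenerateCycles
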