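import Pool.Agent.Q170.GP.Unif

/-!
# Endomorphisms of projective space which are étale along the periodic part of a subvariety

Let `Φ` be an endomorphism of `ℙ^N` over the complex numbers and `V` a closed subvariety.

1. Suppose that a closed set `W` with `Φ(W) ⊆ W`, at whose points `Φ` is étale, contains all points `x`
for which there is `k > 0` with `Φ^(kn)(x) ∈ V` for all `n`. (For example: `V` contains no periodic
subvariety of positive dimension and only finitely many such points `x`, and their orbits avoid the
ramification.) Then for every finitely generated field there are constants such that for all points `α`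
with coordinates in the field the return set is the union of at most `K` arithmetic progressions with the
difference `K` and a sparse set: at most `M` of its elements are between `X` and `b ^ X / C`, for all `X`.
The constants do not depend on `α`.
2. Such sparse sets have at most `D (j + 1)` elements below the `j`-th iterated exponential.

The proof: for suitable `p` the data have good reduction over the `p`-adic integers. On a residue class
modulo `p` the operator `T` which substitutes the map is modulo `p` the substitution of an affine map. So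
an iterate of `T` is idempotent modulo `p`, and the values `g(n)` of a polynomial along an orbit satisfy
`Δ^i g(n) ≡ 0` modulo `p ^ min(i, n)`. Hence `g(n)` is, up to multiples of `p ^ n`, an analytic function of
`n`, the corresponding function of a limit orbit; it has few zeros unless the limit orbit stays in `V`. In
this case `Φ` is étale modulo `p` along the limit orbit, and the orbit is equal to the limit orbit. The
number of zeros in an étale residue class is uniformly bounded by the lemma of Artin and Rees for the
ideal generated by the iterates of the equations of `V` and the powers of `p`.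
-/

set_option autoImplicit false

open MvPolynomial

namespace Pool.Agent.Results.MP_b15c9e_ag.EtalePeriodicPart

open Pool.Agent.Q170.GP (Sparse tower)

/-- An endomorphism of `ℙ^N` over `ℂ`: `N + 1` forms of the same degree without common zero. -/
structure Endo (N : ℕ) where
  F : Fin (N + 1) → MvPolynomial (Fin (N + 1)) ℂ
  homogeneous : ∃ d : ℕ, ∀ i, (F i).IsHomogeneous d
  regular : ∀ x : Fin (N + 1) → ℂ, (∀ i, eval x (F i) = 0) → x = 0

/-- The endomorphism on homogeneous coordinates. -/
noncomputable def Endo.map {N : ℕ} (Φ : Endo N) (x : Fin (N + 1) → ℂ) : Fin (N + 1) → ℂ :=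
  fun i => eval x (Φ.F i)

/-- The endomorphism is étale at the point with homogeneous coordinates `x`: the Jacobian matrix of
the forms `F i` at `x` is invertible. -/
def Endo.EtaleAt {N : ℕ} (Φ : Endo N) (x : Fin (N + 1) → ℂ) : Prop :=
  (Matrix.of fun i j => eval x (pderiv j (Φ.F i))).det ≠ 0

/-- A closed subset of `ℙ^N`, given by forms. -/
structure Closed (N : ℕ) where
  forms : Set (MvPolynomial (Fin (N + 1)) ℂ)
  homogeneous : ∀ g ∈ forms, ∃ e : ℕ, g.IsHomogeneous e

/-- The point with homogeneous coordinates `x` is in `V`. -/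
def Closed.Has {N : ℕ} (V : Closed N) (x : Fin (N + 1) → ℂ) : Prop :=
  ∀ g ∈ V.forms, eval x g = 0

/-- The return set `{n | Φ^n(α) ∈ V}`. -/
def Endo.returns {N : ℕ} (Φ : Endo N) (V : Closed N) (α : Fin (N + 1) → ℂ) : Set ℕ :=
  {n | V.Has (Φ.map^[n] α)}

/-- `Φ^(kn)(x) ∈ V` for all `n`, for some `k > 0`. -/
def Endo.Stays {N : ℕ} (Φ : Endo N) (V : Closed N) (x : Fin (N + 1) → ℂ) : Prop :=
  ∃ k : ℕ, 0 < k ∧ ∀ n, V.Has (Φ.map^[k * n] x)

/-- The union of the arithmetic progressions `{j + K m | m ≥ 0}`, `j ∈ J`. -/
def progressions (K : ℕ) (J : Finset ℕ) : Set ℕ := {n | ∃ j ∈ J, ∃ m : ℕ, n = j + K * m}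

theorem result :
    (∀ (N : ℕ) (Φ : Endo N) (V W : Closed N), (∀ x, x ≠ 0 → W.Has x → W.Has (Φ.map x)) →
      (∀ x, x ≠ 0 → W.Has x → Φ.EtaleAt x) → (∀ x, x ≠ 0 → Φ.Stays V x → W.Has x) →
      ∀ s : Finset ℂ, ∃ (a K M : ℕ) (b C : ℝ), 0 < K ∧ 1 < b ∧ 0 < C ∧
        ∀ α, α ≠ 0 → (∀ i, α i ∈ Subfield.closure (s : Set ℂ)) →
          ∃ (J : Finset ℕ) (R : Set ℕ), J ⊆ Finset.Ico a (a + K) ∧ Sparse M b C R ∧
            Φ.returns V α = progressions K J ∪ R) ∧
    ∀ (M : ℕ) (b C : ℝ), 1 < b → 0 < C → ∃ D : ℕ, ∀ R : Set ℕ, Sparse M b C R → ∀ j : ℕ,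
      {n : ℕ | n ∈ R ∧ n < tower j}.encard ≤ (D * (j + 1) : ℕ) := by
  refine ⟨fun N Φ V W h1 h2 h3 s => ?_, fun M b C hb hC =>
    Pool.Agent.Q170.GP.tower_count M b C hb hC⟩
  obtain ⟨d, hd⟩ := Φ.homogeneous
  exact Pool.Agent.Q170.GP.proj_etale_unif Φ.F hd Φ.regular V.forms V.homogeneous W.forms h1 h2
    (fun x hx k hk hst => h3 x hx ⟨k, hk, hst⟩) s

end Pool.Agent.Results.MP_b15c9e_ag.EtalePeriodicPart
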