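import Pool.Agent.Q170.GP.Deg

/-!
# A gap principle for endomorphisms of projective space

Let `Φ` be an endomorphism of `ℙ^N` over the complex numbers and `V` a closed subvariety.

1. Suppose that no point `x` of `V` has a `k > 0` with `Φ^(kn)(x) ∈ V` for all `n` (for `Φ` of degree at
least two this means that `V` contains no periodic point). Then for every finitely generated field `K`
and every `D` there are `M`, `b > 1` and `C > 0` such that for all points `α` of degree at most `D` over
`K` and all `X` at most `M` of the numbers `n` with `Φ^n(α) ∈ V` are between `X` and `b ^ X / C`. The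
constants do not depend on `α`.
2. Such sparse sets have at most `E (j + 1)` elements below the `j`-th iterated exponential.

The proof: for suitable `p` the data have good reduction over the `p`-adic integers. On a residue class
modulo `p` the operator `T` which substitutes the map is modulo `p` the substitution of an affine map. So
an iterate of `T` is idempotent modulo `p`, and the values `g(n)` of a polynomial along an orbit satisfy
`Δ^i g(n) ≡ 0` modulo `p ^ min(i, n)`. Hence `g(n)` is, up to multiples of `p ^ n`, an analytic function of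
`n`, the corresponding function of a limit orbit; it has few zeros unless the limit orbit stays in `V`.
The maps need not be étale or split, and no coordinates of Böttcher or linearization are used. A point of
degree at most `D` becomes a tuple of commuting matrices of size at most `D` over the `p`-adic integers
which generate the unit ideal; these tuples form a compact set which is stable under the map, and a common
eigenvector of the limit gives a complex point which stays in `V`.
-/

set_option autoImplicit false

open MvPolynomial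

namespace Pool.Agent.Results.MP_b15c9e_ag.GapPrinciple

open Pool.Agent.Q170.GP (Sparse tower)

/-- An endomorphism of `ℙ^N` over `ℂ`: `N + 1` forms of the same degree without common zero. -/
structure Endo (N : ℕ) where
  F : Fin (N + 1) → MvPolynomial (Fin (N + 1)) ℂ
  homogeneous : ∃ d : ℕ, ∀ i, (F i).IsHomogeneous d
  regular : ∀ x : Fin (N + 1) → ℂ, (∀ i, eval x (F i) = 0) → x = 0

/-- The endomorphism on homogeneous coordinates. -/
noncomputable def Endo.map {N : ℕ} (Φ : Endo N) (x : Fin (N + 1) → ℂ) : Fin (N + 1) → ℂ :=
  fun i => eval x (Φ.F i)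

/-- A closed subset of `ℙ^N`, given by forms. -/
structure Closed (N : ℕ) where
  forms : Set (MvPolynomial (Fin (N + 1)) ℂ)
  homogeneous : ∀ g ∈ forms, ∃ e : ℕ, g.IsHomogeneous e

/-- The point with homogeneous coordinates `x` is in `V`. -/
def Closed.Has {N : ℕ} (V : Closed N) (x : Fin (N + 1) → ℂ) : Prop :=
  ∀ g ∈ V.forms, eval x g = 0

/-- The return set `{n | Φ^n(α) ∈ V}`. -/
def Endo.returns {N : ℕ} (Φ : Endo N) (V : Closed N) (α : Fin (N + 1) → ℂ) : Set ℕ :=
  {n | V.Has (Φ.map^[n] α)}

/-- `Φ^(kn)(x) ∈ V` for all `n`, for some `k > 0`. -/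
def Endo.Stays {N : ℕ} (Φ : Endo N) (V : Closed N) (x : Fin (N + 1) → ℂ) : Prop :=
  ∃ k : ℕ, 0 < k ∧ ∀ n, V.Has (Φ.map^[k * n] x)

theorem result :
    (∀ (N : ℕ) (Φ : Endo N) (V : Closed N), (∀ x, x ≠ 0 → ¬ Φ.Stays V x) → ∀ (s : Finset ℂ) (D : ℕ),
      ∃ (M : ℕ) (b C : ℝ), 1 < b ∧ 0 < C ∧
        ∀ L : IntermediateField (Subfield.closure (s : Set ℂ)) ℂ,
          FiniteDimensional (Subfield.closure (s : Set ℂ)) L →
          Module.finrank (Subfield.closure (s : Set ℂ)) L ≤ D →
          ∀ α, α ≠ 0 → (∀ i, α i ∈ L) → Sparse M b C (Φ.returns V α)) ∧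
    ∀ (M : ℕ) (b C : ℝ), 1 < b → 0 < C → ∃ E : ℕ, ∀ R : Set ℕ, Sparse M b C R → ∀ j : ℕ,
      {n : ℕ | n ∈ R ∧ n < tower j}.encard ≤ (E * (j + 1) : ℕ) := by
  refine ⟨fun N Φ V h s D => ?_, fun M b C hb hC => Pool.Agent.Q170.GP.tower_count M b C hb hC⟩
  obtain ⟨d, hd⟩ := Φ.homogeneous
  exact Pool.Agent.Q170.GP.proj_gap_deg Φ.F hd Φ.regular V.forms V.homogeneous (by
    intro x hx k hk
    by_contra hcon
    push Not at hcon
    exact h x hx ⟨k, hk, hcon⟩) s D

end Pool.Agent.Results.MP_b15c9e_ag.GapPrinciple
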