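import Pool.Agent.Q170.HG.Main

/-!
# Curves under arbitrary endomorphisms of projective space over number fields

Let `Φ` be an endomorphism of `ℙ^N` of degree at least two over a number field `K` and let `V` be a closed
subset of dimension at most one. There is a number `C` such that for ALL points `α` of `ℙ^N(K)` the return
set `{n | Φ^n(α) ∈ V}` is the union of `C` sets, each of which is an arithmetic progression of modulus at
most `C` or a set in which `n < n'` implies `n' ≥ 2 n - C`. So it is a union of progressions and a set
which has at most `3 C` elements between `X` and `2 X` for large `X`, hence at most a constant times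
`log X` elements up to `X`.

There is no condition on the ramification of `Φ` and on the periodic points in `V`.

The proof: the height of `Φ^n(α)` is at least `d ^ (n - M)` unless `α` is preperiodic with tail and period at
most `M`. If a component `W` of `V` is not periodic, then the height of the points of
`W ∩ Φ^(-k)(V)` outside a finite set is at most `C d ^ k`: let `y` be a nonconstant coordinate; the
function field of `W` has a finite basis over `K(y)`, multiplication with the coordinates is given by
matrices of polynomials in `y`, multiplication with `G ∘ Φ^k` by a matrix of polynomials in `y` with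
coefficients of logarithmic size `C d ^ k`, and its determinant vanishes at the values of `y` at the points
of `W ∩ Φ^(-k)(V)`. So if `Φ^n(α)` and `Φ^(n')(α)` are in `W`, then `d ^ (n - M) ≤ C d ^ (n' - n)`.
-/

set_option autoImplicit false

open MvPolynomial

namespace Pool.Agent.Results.MP_b15c9e_ag.HeightGap

/-- An endomorphism of `ℙ^N` over `K` of degree `d`: `N + 1` forms of degree `d` without common zero over
the algebraic closure. -/
structure Endo (K : Type) [Field K] (N d : ℕ) where
  F : Fin (N + 1) → MvPolynomial (Fin (N + 1)) K
  homogeneous : ∀ i, (F i).IsHomogeneous d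
  regular : ∀ x : Fin (N + 1) → AlgebraicClosure K, (∀ i, aeval x (F i) = 0) → x = 0

/-- The endomorphism on homogeneous coordinates. -/
noncomputable def Endo.map {K : Type} [Field K] {N d : ℕ} (Φ : Endo K N d) (x : Fin (N + 1) → K) :
    Fin (N + 1) → K :=
  fun i => eval x (Φ.F i)

/-- A closed subset of `ℙ^N`, given by forms. -/
structure Closed (K : Type) [Field K] (N : ℕ) where
  forms : Set (MvPolynomial (Fin (N + 1)) K)
  homogeneous : ∀ g ∈ forms, ∃ e : ℕ, g.IsHomogeneous e

/-- The point with homogeneous coordinates `x` is in `V`. -/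
def Closed.Has {K : Type} [Field K] {N : ℕ} (V : Closed K N) (x : Fin (N + 1) → K) : Prop :=
  ∀ g ∈ V.forms, eval x g = 0

/-- The `K`-points of `V` are in a closed set of dimension at most one: any two quotients `x_i / x_l`,
`x_j / x_l` of coordinates satisfy a polynomial equation on `V`. -/
def Closed.AtMostCurve {K : Type} [Field K] {N : ℕ} (V : Closed K N) : Prop :=
  ∀ i j l, ∃ Q : Polynomial (Polynomial K), Q ≠ 0 ∧
    ∀ x, V.Has x → x l ≠ 0 → Q.evalEval (x j / x l) (x i / x l) = 0

/-- The return set `{n | Φ^n(α) ∈ V}`. -/
def Endo.returns {K : Type} [Field K] {N d : ℕ} (Φ : Endo K N d) (V : Closed K N)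
    (α : Fin (N + 1) → K) : Set ℕ :=
  {n | V.Has (Φ.map^[n] α)}

/-- A progression of modulus at most `C`, or a set in which `a < b` implies `b ≥ 2 a - C`. -/
def Piece (C : ℕ) (s : Set ℕ) : Prop :=
  (∃ a m, 0 < m ∧ m ≤ C ∧ s = {n | ∃ j, n = a + m * j}) ∨
    ∀ a ∈ s, ∀ b ∈ s, a < b → 2 * a ≤ b + C

theorem result (K : Type) [Field K] [NumberField K] (N d : ℕ) (hd : 2 ≤ d) (Φ : Endo K N d)
    (V : Closed K N) (hV : V.AtMostCurve) :
    ∃ C : ℕ, ∀ α : Fin (N + 1) → K, α ≠ 0 →
      ∃ s : Fin C → Set ℕ, (∀ i, Piece C (s i)) ∧ Φ.returns V α = ⋃ i, s i :=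
  Pool.Agent.Q170.HG.cone_main ⟨Φ.homogeneous, Φ.regular⟩ hd {x | V.Has x}
    ⟨V.forms, V.homogeneous, rfl⟩ hV

end Pool.Agent.Results.MP_b15c9e_ag.HeightGap
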